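import Pool.Agent.N110.CC.Res

/-!
Both cone conjectures for varieties with an abelian group of automorphisms of maximal rank.
-/

set_option autoImplicit false

open FF Pool.Agent.W602.GT Pool.Agent.Y172 Pool.Agent.R887 Pool.Agent.N110 Pool.Agent.N110.CC

/-- Let `X` be a normal projective variety of dimension `n ≥ 1`, with generic point `y`. Let the
vectors `c P` be the classes of the prime divisors in `N¹(X) = ℤ ^ (r + 1)`, `r ≥ 1` (if `X` is
`ℚ`-factorial then `r + 1` is the Picard number of `X`). Let `ℤ ^ r` act on `X` by automorphisms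
`f_v`, given by the automorphisms `φ v = f_v^*` of the function field, and suppose that `f_v` has
positive entropy (the first dynamical degree is greater than `1`) for all `v ≠ 0`. So the rank of the
group is the Picard number of `X` minus one, the greatest possible value.

Then the nef cone and the closed movable cone of `X` are equal, they contain the effective cone, and
both parts of the cone conjecture hold: the action of the group `Aut(X)` of all automorphisms on
`Nef(X) ∩ Eff(X)` and the action of the group `PsAut(X)` of all pseudo-automorphisms on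
`Mov(X) ∩ Eff(X)` have rational polyhedral fundamental domains. The same is true for every group of
automorphisms of `X` and every group of pseudo-automorphisms of `X` which contain the maps `f_v`, for
instance for the groups of those which preserve a divisor `Δ`, if the maps `f_v` preserve it. -/
theorem Pool.Agent.Results.MP_ad47bb_ag.MaximalRankPairs.result
    {K : Type} [Field K] [Algebra ℂ K] {N n r : ℕ} {y : Fin (N + 1) → K} (hy : NormalModel y)
    (hn : Algebra.trdeg ℂ K = n) (hn0 : 0 < n) (hr : 0 < r)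
    {c : Place ℂ K → Fin (r + 1) → ℤ} (hc : PicardBasis y c)
    {φ : (Fin r → ℤ) → (K ≃ₐ[ℂ] K)} (hφ : ∀ u v, φ (u + v) = φ u * φ v)
    (haut : ∀ v, IsAut (φ v) y) (hent : ∀ v, v ≠ 0 → 1 < dynDegree (φ v) y n 1) :
    nefCone y n c = movCone y c ∧ effCone y c ⊆ nefCone y n c ∧
      HasFundDomain {T | ∃ ψ, IsAut ψ y ∧ IsPullBack y c ψ T} (nefCone y n c ∩ effCone y c) ∧
      HasFundDomain {T | ∃ ψ, PseudoAut ψ y ∧ IsPullBack y c ψ T} (movCone y c ∩ effCone y c) ∧
      (∀ G : Subgroup (K ≃ₐ[ℂ] K), (∀ v, φ v ∈ G) → (∀ ψ ∈ G, IsAut ψ y) →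
        HasFundDomain {T | ∃ ψ ∈ G, IsPullBack y c ψ T} (nefCone y n c ∩ effCone y c)) ∧
      ∀ G : Subgroup (K ≃ₐ[ℂ] K), (∀ v, φ v ∈ G) → (∀ ψ ∈ G, PseudoAut ψ y) →
        HasFundDomain {T | ∃ ψ ∈ G, IsPullBack y c ψ T} (movCone y c ∩ effCone y c) := by
  have hps := fun v => isAut_ps hy (haut v)
  refine ⟨?_, (cc_nef hy hn hn0 hr hc (𝒮 := autGroup y) (fun _ h => h) hφ haut hent).1,
    (cc_nef hy hn hn0 hr hc (𝒮 := autGroup y) (fun _ h => h) hφ haut hent).2,
    (cc_mov hy hn hn0 hr hc (𝒮 := psGroup y) (fun _ h => h) hφ hps hent).2,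
    fun G hG hG' => (cc_nef hy hn hn0 hr hc hG' hφ hG hent).2,
    fun G hG hG' => (cc_mov hy hn hn0 hr hc hG' hφ hG hent).2⟩
  rw [nef_eq hy hn hn0 hr hc (𝒮 := autGroup y) (fun _ h => h) hφ haut hent,
    mov_eq hy hn hn0 hr hc (𝒮 := psGroup y) (fun _ h => h) hφ hps hent]
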