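import Pool.Agent.N165.KM.Push

/-!
# MP_ad47bb_ag: the movable cone conjecture passes to the targets of birational contractions

`Pool.Agent.Y167.cone S` is the convex cone generated by the finite set `S`.
-/

namespace Pool.Agent.Results.MP_ad47bb_ag.MovableContractions

open Pool.Agent.Y167 (cone)
open Pool.Agent.N165.KM

/-- The vector `x` has integral coordinates. -/
def Integral {ρ : ℕ} (x : Fin ρ → ℝ) : Prop := ∀ i, ∃ m : ℤ, x i = m

/-- The numerical data of a klt Calabi–Yau pair `(X, Δ)` with `X` a `ℚ`-factorial variety. A basis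
of the lattice of the classes of Weil divisors identifies `N^1(X)` with `ℝ^ρ` and this lattice with
`ℤ^ρ`. -/
structure CYPair where
  /-- the Picard number -/
  ρ : ℕ
  /-- the closure of the movable cone -/
  Mov : Set (Fin ρ → ℝ)
  /-- the effective cone -/
  Eff : Set (Fin ρ → ℝ)
  /-- the group of pseudo-automorphisms of `X` -/
  PsAut : Type
  [grp : Group PsAut]
  /-- the pull-back of classes by a pseudo-automorphism -/
  pull : PsAut → ((Fin ρ → ℝ) ≃ₗ[ℝ] (Fin ρ → ℝ))
  pull_mul : ∀ f g, pull (f * g) = pull g * pull f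
  pull_int : ∀ f x, Integral x → Integral (pull f x)
  pull_mov : ∀ f, ∀ x ∈ Mov, pull f x ∈ Mov
  pull_eff : ∀ f, ∀ x ∈ Eff, pull f x ∈ Eff
  /-- the closed movable cone is a convex cone without lines, with nonempty interior -/
  mov_closed : IsClosed Mov
  mov_add : ∀ x ∈ Mov, ∀ y ∈ Mov, x + y ∈ Mov
  mov_smul : ∀ t : ℝ, 0 ≤ t → ∀ x ∈ Mov, t • x ∈ Mov
  mov_line : ∀ x ∈ Mov, -x ∈ Mov → x = 0
  mov_nonempty : (interior Mov).Nonempty
  /-- the effective cone is a convex cone which contains the interior of the movable cone -/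
  eff_add : ∀ x ∈ Eff, ∀ y ∈ Eff, x + y ∈ Eff
  eff_smul : ∀ t : ℝ, 0 ≤ t → ∀ x ∈ Eff, t • x ∈ Eff
  mov_eff : interior Mov ⊆ Eff

attribute [instance] CYPair.grp

/-- The cone `Mov^e(X)`. -/
def MovE (X : CYPair) : Set (Fin X.ρ → ℝ) := X.Mov ∩ X.Eff

/-- Part (b) of the cone conjecture: some rational polyhedral cone `cone S` is a fundamental domain
for the action of `PsAut(X)` on `Mov^e(X)`. -/
def MovableConeConjecture (X : CYPair) : Prop :=
  ∃ S : Finset (Fin X.ρ → ℝ), (∀ s ∈ S, Integral s) ∧
    MovE X = ⋃ f : X.PsAut, X.pull f '' cone S ∧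
    ∀ f : X.PsAut, X.pull f ≠ 1 → interior (cone S) ∩ X.pull f '' interior (cone S) = ∅

/-- A birational contraction `π : X ⇢ Y` (a birational map whose inverse contracts no divisor)
between Calabi–Yau pairs with `Δ_Y = π_* Δ_X`. -/
structure IsContraction (X Y : CYPair) where
  /-- the push-forward `π_*` -/
  down : (Fin X.ρ → ℝ) →ₗ[ℝ] (Fin Y.ρ → ℝ)
  down_int : ∀ x, Integral x → Integral (down x)
  down_mov : ∀ x ∈ MovE X, down x ∈ MovE Y
  /-- every class in `Mov^e(Y)` is the push-forward of a class in `Mov^e(X)`, the positive part of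
  its pull-back -/
  lift : ∀ y ∈ MovE Y, ∃ x ∈ MovE X, down x = y
  /-- the set of the big classes in `Mov^e(X)` whose augmented base locus contains precisely the
  prime divisors contracted by `π` -/
  Exc : Set (Fin X.ρ → ℝ)
  /-- it contains the positive part of the pull-back of a class in the interior of the movable
  cone of `Y` -/
  exc_lift : ∀ y ∈ interior Y.Mov, ∃ x ∈ MovE X, x ∈ Exc ∧ down x = y
  /-- if `x` and `w` in `Mov^e(X)` generate the same face of `Mov^e(X)`, then the same prime
  divisors lie in their augmented base loci -/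
  exc_face : ∀ x ∈ MovE X, ∀ w ∈ MovE X, x ∈ Exc → (∃ ε : ℝ, 0 < ε ∧ x - ε • w ∈ MovE X) →
    (∃ ε : ℝ, 0 < ε ∧ w - ε • x ∈ MovE X) → w ∈ Exc
  /-- a pseudo-automorphism `f` with `x` and `f^* x` in `Exc` permutes the prime divisors contracted
  by `π`, and so descends to a pseudo-automorphism of `Y` -/
  descend : ∀ f : X.PsAut, (∃ x ∈ MovE X, x ∈ Exc ∧ X.pull f x ∈ Exc) →
    ∃ f' : Y.PsAut, ∀ x, down (X.pull f x) = Y.pull f' (down x)

theorem sandwich (X : CYPair) : Sandwich X.Mov (MovE X) where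
  closed := X.mov_closed
  add := X.mov_add
  smul := X.mov_smul
  pointed := X.mov_line
  int := X.mov_nonempty
  Nsub := Set.inter_subset_left
  Nint := fun x hx => ⟨interior_subset hx, X.mov_eff hx⟩
  Nadd := fun x hx y hy => ⟨X.mov_add x hx.1 y hy.1, X.eff_add x hx.2 y hy.2⟩
  Nsmul := fun t ht x hx => ⟨X.mov_smul t ht x hx.1, X.eff_smul t ht x hx.2⟩

/-- If part (b) of the cone conjecture holds for `(X, Δ_X)` and `X ⇢ Y` is a birational contraction,
then part (b) holds for `(Y, Δ_Y)`. -/
theorem result (X Y : CYPair) (π : IsContraction X Y) (hX : MovableConeConjecture X) :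
    MovableConeConjecture Y :=
  push (sandwich X) (sandwich Y) X.pull_mul Y.pull_mul
    (fun f x hx => X.pull_int f x hx) (fun f x hx => ⟨X.pull_mov f x hx.1, X.pull_eff f x hx.2⟩)
    (fun f x hx => Y.pull_int f x hx) (fun f x hx => ⟨Y.pull_mov f x hx.1, Y.pull_eff f x hx.2⟩)
    π.down (fun x hx => π.down_int x hx) π.down_mov π.lift π.Exc π.exc_lift
    π.exc_face π.descend hX

end Pool.Agent.Results.MP_ad47bb_ag.MovableContractions
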